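import Pool.Agent.K1H82.KT.Stm

/-! Elements of a number field which are small in finitely many completions. -/

set_option autoImplicit false

namespace Pool.Agent.K1H33.KT

open Pool.Agent.K1H82.KT Filter Polynomial

/-- The absolute value on `ℚ`. -/
noncomputable def av {K L : Type} [Field K] [CharZero K] [NontriviallyNormedField L] (σ : K →+* L) :
    AbsoluteValue ℚ ℝ :=
  (NormedField.toAbsoluteValue L).comp (f := σ.comp (algebraMap ℚ K)) (RingHom.injective _)

theorem av_apply {K L : Type} [Field K] [CharZero K] [NontriviallyNormedField L] (σ : K →+* L)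
    (q : ℚ) : av σ q = ‖σ (algebraMap ℚ K q)‖ := rfl

theorem geom_lt {t : ℝ} (ht : 2 < t) (n : ℕ) : ∑ i ∈ Finset.range n, t ^ i < t ^ n := by
  have h := geom_sum_mul t n
  have h0 : 0 ≤ ∑ i ∈ Finset.range n, t ^ i :=
    Finset.sum_nonneg fun i _ => pow_nonneg (by linarith) i
  nlinarith

/-- The absolute value on `ℚ` is nontrivial. -/
theorem av_nontrivial {K L : Type} [Field K] [NumberField K] [NontriviallyNormedField L]
    (σ : K →+* L) (hd : DenseRange σ) : (av σ).IsNontrivial := by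
  by_contra hne
  have h1 : ∀ q : ℚ, ‖σ (algebraMap ℚ K q)‖ ≤ 1 := by
    intro q
    by_cases hq : q = 0
    · rw [hq, map_zero, map_zero, norm_zero]; exact zero_le_one
    · have := AbsoluteValue.not_isNontrivial_apply hne hq
      rw [av_apply] at this
      exact this.le
  obtain ⟨x, hx⟩ := NormedField.exists_lt_norm L 2
  obtain ⟨y, hy⟩ := hd.exists_mem_open (isOpen_lt continuous_const continuous_norm) ⟨x, hx⟩
  change 2 < ‖σ y‖ at hy
  have hint : IsIntegral ℚ y := Algebra.IsIntegral.isIntegral y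
  have hm := minpoly.monic hint
  have h0 := minpoly.aeval ℚ y
  rw [hm.as_sum] at h0
  simp only [map_add, map_pow, aeval_X, map_sum, map_mul, aeval_C] at h0
  set n := (minpoly ℚ y).natDegree with hn
  have h2 : σ y ^ n = -∑ i ∈ Finset.range n, σ (algebraMap ℚ K ((minpoly ℚ y).coeff i)) * σ y ^ i := by
    have h3 := congrArg σ h0
    simp only [map_add, map_pow, map_sum, map_mul, map_zero] at h3
    exact eq_neg_of_add_eq_zero_left h3
  have h3 : ‖σ y‖ ^ n ≤ ∑ i ∈ Finset.range n, ‖σ y‖ ^ i := by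
    rw [← norm_pow, h2, norm_neg]
    refine (norm_sum_le _ _).trans (Finset.sum_le_sum fun i _ => ?_)
    rw [norm_mul, norm_pow]
    calc _ ≤ 1 * ‖σ y‖ ^ i := mul_le_mul_of_nonneg_right (h1 _) (by positivity)
      _ = _ := one_mul _
  exact absurd (geom_lt hy n) (not_lt.2 h3)

theorem t_SML : S_SML := by
  intro K _ _ ι _ L _ σ hd ε hε
  classical
  have := Fintype.ofFinite ι
  have key : ∀ i, ∃ p : ℕ, p.Prime ∧ ((av (σ i)).IsEquiv Rat.AbsoluteValue.real ∨
      ∃ _ : Fact p.Prime, (av (σ i)).IsEquiv (Rat.AbsoluteValue.padic p)) := by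
    intro i
    rcases Rat.AbsoluteValue.equiv_real_or_padic (av (σ i)) (av_nontrivial (σ i) (hd i)) with h | h
    · exact ⟨2, Nat.prime_two, Or.inl h⟩
    · obtain ⟨p, ⟨hp, h⟩, -⟩ := h
      exact ⟨p, hp.out, Or.inr ⟨hp, h⟩⟩
  choose p hp hpe using key
  obtain ⟨l, hl1, hl⟩ := Nat.exists_infinite_primes (∏ i, p i + 1)
  set P : ℕ := ∏ i, p i with hP
  have hP0 : P ≠ 0 := Finset.prod_ne_zero_iff.2 fun i _ => (hp i).ne_zero
  have hl0 : l ≠ 0 := hl.ne_zero
  have hpl : ∀ i, ¬ p i ∣ l := by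
    intro i h
    have h1 : p i = l := (Nat.prime_dvd_prime_iff_eq (hp i) hl).1 h
    have h2 : p i ≤ P := Nat.le_of_dvd (Nat.pos_of_ne_zero hP0)
      (Finset.dvd_prod_of_mem _ (Finset.mem_univ i))
    omega
  -- the two kinds of places
  have hcase : ∀ i, av (σ i) ((l : ℚ)⁻¹) < 1 ∨
      (av (σ i) (P : ℚ) < 1 ∧ av (σ i) ((l : ℚ)⁻¹) = 1) := by
    intro i
    rcases hpe i with h | ⟨hf, h⟩
    · left
      rw [h.lt_one_iff, map_inv₀, Rat.AbsoluteValue.real_eq_abs]
      have : (1 : ℝ) < l := by exact_mod_cast hl.one_lt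
      push_cast
      rw [abs_of_pos (by positivity)]
      exact inv_lt_one_of_one_lt₀ this
    · right
      constructor
      · rw [h.lt_one_iff, Rat.AbsoluteValue.padic_eq_padicNorm]
        have h1 : padicNorm (p i) (P : ℚ) < 1 := by
          rw [padicNorm.nat_lt_one_iff]
          exact Finset.dvd_prod_of_mem _ (Finset.mem_univ i)
        exact_mod_cast h1
      · rw [h.eq_one_iff, map_inv₀, Rat.AbsoluteValue.padic_eq_padicNorm]
        have h1 : padicNorm (p i) (l : ℚ) = 1 := by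
          rw [padicNorm.nat_eq_one_iff]
          exact hpl i
        rw [h1]; simp
  have hk : ∀ᶠ k : ℕ in atTop, ∀ i, (av (σ i) (P : ℚ) < 1 → av (σ i) (P : ℚ) ^ k < ε) := by
    rw [eventually_all]
    intro i
    by_cases h : av (σ i) (P : ℚ) < 1
    · have h1 := (tendsto_pow_atTop_nhds_zero_of_lt_one ((av (σ i)).nonneg _) h).eventually
        (gt_mem_nhds hε)
      exact h1.mono fun k hk _ => hk
    · exact Eventually.of_forall fun k hh => absurd hh h
  obtain ⟨k, hk⟩ := hk.exists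
  have hm : ∀ᶠ m : ℕ in atTop, ∀ i, (av (σ i) ((l : ℚ)⁻¹) < 1 →
      av (σ i) (P : ℚ) ^ k * av (σ i) ((l : ℚ)⁻¹) ^ m < ε) := by
    rw [eventually_all]
    intro i
    by_cases h : av (σ i) ((l : ℚ)⁻¹) < 1
    · have h1 := (tendsto_pow_atTop_nhds_zero_of_lt_one ((av (σ i)).nonneg _) h).const_mul
        (av (σ i) (P : ℚ) ^ k)
      rw [mul_zero] at h1
      exact (h1.eventually (gt_mem_nhds hε)).mono fun k hk _ => hk
    · exact Eventually.of_forall fun k hh => absurd hh h
  obtain ⟨m, hm⟩ := hm.exists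
  refine ⟨algebraMap ℚ K ((P : ℚ) ^ k * ((l : ℚ)⁻¹) ^ m), ?_, fun i => ?_⟩
  · rw [Ne, map_eq_zero]
    have : (P : ℚ) ≠ 0 := by exact_mod_cast hP0
    have : (l : ℚ) ≠ 0 := by exact_mod_cast hl0
    positivity
  · rw [← av_apply, map_mul, map_pow, map_pow]
    rcases hcase i with h | ⟨h1, h2⟩
    · exact hm i h
    · rw [h2, one_pow, mul_one]
      exact hk i h1

end Pool.Agent.K1H33.KT
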